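import Pool.Agent.J4H63.IS.Stm
import Pool.Agent.J4H87.SP.Acp

set_option autoImplicit false

/-! # Project IS, piece (BA): every bit of the block formula is computed by a tree of constant depth -/

namespace Pool.Agent.J4H8.IS

open Finset Pool.Agent.J4H64.SS Pool.Agent.J4H95.SP Pool.Agent.J4H63.IS Pool.Agent.J4H87.SP

open Classical in
theorem t_BA : S_BA := by
  intro n b κ w c q hw hcard
  have h1 : AC w 3 (fun x : Pr n → Bool => ∃ p : Pr n,
      (q.1 = {lx n b p.1.1 false, lx n b p.1.2 false}) ∧ x p = true) :=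
    ac_ex hcard (fun p => ac_cand (d := 0) (AC.inp _ _))
  have h2 := ac_or hw (ac_const (w := w) (q.1 = ∅ ∧ ∑ i, (c i).1 < κ)) h1
  have h3 := ac_or hw h2 (ac_const (I := Pr n) (w := w) (
    (∃ i t, ∃ j ∈ sb b t, ∃ h : i.1 * b + j.1 < n, q.1 = {ly n b i t false, lx n b ⟨_, h⟩ true}) ∨
    (∃ i t, (∃ j ∈ sb b t, ¬ i.1 * b + j.1 < n) ∧ q.1 = {ly n b i t false}) ∨
    (∃ i t, (sb b t).card < (c i).1 ∧ q.1 = {ly n b i t false}) ∨
    (∃ i, q.1 = {lw n b i 0 true}) ∨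
    (∃ i t, q.1 = {lw n b i (Fin.castSucc t) false, ly n b i t true, lw n b i t.succ true}) ∨
    (∃ i, q.1 = {lw n b i (Fin.last _) false})))
  refine mono (d := _) ?_ (show max (max 2 3 + 1) 2 + 1 ≤ 20 by norm_num)
  convert h3 using 2
  rename_i x
  refine (decide_eq_true_iff (p := Bk n b κ c x q.1)).trans ?_
  unfold Bk
  constructor
  · rintro (h | ⟨p, h1, h2⟩ | h)
    · exact Or.inl (Or.inl h)
    · exact Or.inl (Or.inr ⟨p, h2, h1⟩)
    · exact Or.inr h
  · rintro ((h | ⟨p, h1, h2⟩) | h)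
    · exact Or.inl h
    · exact Or.inr (Or.inl ⟨p, h2, h1⟩)
    · exact Or.inr (Or.inr h)

end Pool.Agent.J4H8.IS
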